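import Mathlib

/-!
MP_716236_co, part K (linear algebra): the statement K for all l follows from its case l = 0
(helper7).  Product with a projective line: `V × V` with `(x, y) = x + τ y`, `τ ^ 2 = 0`.
-/

set_option autoImplicit false

namespace Pool.Agent.KF.K

/-- The hypotheses of K: a graded real vector space of weight `m` with a symmetric nondegenerate form,
two commuting selfadjoint operators of degree one such that `eta + t N` satisfies the Hodge-Riemann
relations for all large `t`. -/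
structure KHyp (V : Type) [AddCommGroup V] [Module ℝ V] (m : ℕ) (G : ℕ → Submodule ℝ V)
    (S : V →ₗ[ℝ] V →ₗ[ℝ] ℝ) (N eta : V →ₗ[ℝ] V) : Prop where
  fin : Module.Finite ℝ V
  span : ⨆ i, G i = ⊤
  symm : ∀ x y, S x y = S y x
  nondeg : ∀ x, (∀ y, S x y = 0) → x = 0
  pair : ∀ i j x y, x ∈ G i → y ∈ G j → i + j ≠ m → S x y = 0
  degN : ∀ i x, x ∈ G i → N x ∈ G (i + 1)
  degE : ∀ i x, x ∈ G i → eta x ∈ G (i + 1)
  comm : ∀ x, N (eta x) = eta (N x)
  adjN : ∀ x y, S (N x) y = S x (N y)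
  adjE : ∀ x y, S (eta x) y = S x (eta y)
  hr : ∃ t0 : ℝ, ∀ t : ℝ, t0 ≤ t → ∀ i x, x ∈ G i → 2 * i ≤ m →
    ((eta + t • N) ^ (m - 2 * i + 1)) x = 0 → x ≠ 0 →
    0 < (-1 : ℝ) ^ i * S x (((eta + t • N) ^ (m - 2 * i)) x)

/-- The conclusion of K for the exponent `l`. -/
def KConc (V : Type) [AddCommGroup V] [Module ℝ V] (m : ℕ) (G : ℕ → Submodule ℝ V)
    (S : V →ₗ[ℝ] V →ₗ[ℝ] ℝ) (N eta : V →ₗ[ℝ] V) (l : ℕ) : Prop :=
  ∀ i x, x ∈ G i → (N ^ (l + 1)) x = 0 → l + 2 * i ≤ m →
    (∃ z, (eta ^ (m - 2 * i - l + 1)) ((N ^ l) x) = (N ^ (l + 1)) z) →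
    0 ≤ (-1 : ℝ) ^ i * S x ((eta ^ (m - 2 * i - l)) ((N ^ l) x)) ∧
    ((¬ ∃ z, (N ^ l) x = (N ^ (l + 1)) z) →
      0 < (-1 : ℝ) ^ i * S x ((eta ^ (m - 2 * i - l)) ((N ^ l) x)))

section Prod

variable {V : Type} [AddCommGroup V] [Module ℝ V]

/-- shift of a grading by one. -/
def shiftG (G : ℕ → Submodule ℝ V) : ℕ → Submodule ℝ V
  | 0 => ⊥
  | (i + 1) => G i

/-- grading of the product. -/
def prodG (G : ℕ → Submodule ℝ V) (i : ℕ) : Submodule ℝ (V × V) := (G i).prod (shiftG G i)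

/-- form of the product: `S (x + τ y) (x' + τ y') = S x y' + S y x'`. -/
def prodS (S : V →ₗ[ℝ] V →ₗ[ℝ] ℝ) : (V × V) →ₗ[ℝ] (V × V) →ₗ[ℝ] ℝ :=
  (S.compl₁₂ (LinearMap.fst ℝ V V) (LinearMap.snd ℝ V V)) +
  (S.compl₁₂ (LinearMap.snd ℝ V V) (LinearMap.fst ℝ V V))

/-- the operator `A + c τ` on the product. -/
def prodA (A : V →ₗ[ℝ] V) (c : ℝ) : (V × V) →ₗ[ℝ] (V × V) :=
  (A.comp (LinearMap.fst ℝ V V)).prod (A.comp (LinearMap.snd ℝ V V) + c • LinearMap.fst ℝ V V)

@[simp] lemma prodS_apply (S : V →ₗ[ℝ] V →ₗ[ℝ] ℝ) (u v : V × V) :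
    prodS S u v = S u.1 v.2 + S u.2 v.1 := rfl

@[simp] lemma prodA_apply (A : V →ₗ[ℝ] V) (c : ℝ) (u : V × V) :
    prodA A c u = (A u.1, A u.2 + c • u.1) := rfl

lemma prodA_pow (A : V →ₗ[ℝ] V) (c : ℝ) (k : ℕ) (u : V × V) :
    (prodA A c ^ k) u = ((A ^ k) u.1, (A ^ k) u.2 + ((k : ℝ) * c) • (A ^ (k - 1)) u.1) := by
  induction k generalizing u with
  | zero => simp
  | succ k ih =>
    rw [pow_succ, Module.End.mul_apply, ih]
    rcases k with _ | k
    · simp
    · simp only [prodA_apply, Nat.add_sub_cancel]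
      refine Prod.ext ?_ ?_
      · simp only [pow_succ, Module.End.mul_apply]
      · simp only [map_add, map_smul]
        have e1 : (A ^ (k + 1)) (A u.2) = (A ^ (k + 1 + 1)) u.2 := by
          rw [pow_succ A (k + 1), Module.End.mul_apply]
        have e2 : (A ^ k) (A u.1) = (A ^ (k + 1)) u.1 := by
          rw [pow_succ A k, Module.End.mul_apply]
        rw [e1, e2, add_assoc, ← add_smul]
        congr 2
        push_cast
        ring

lemma prodA_zero_pow (A : V →ₗ[ℝ] V) (k : ℕ) (u : V × V) :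
    (prodA A 0 ^ k) u = ((A ^ k) u.1, (A ^ k) u.2) := by
  rw [prodA_pow]; simp

lemma mem_prodG_zero (G : ℕ → Submodule ℝ V) (u : V × V) :
    u ∈ prodG G 0 ↔ u.1 ∈ G 0 ∧ u.2 = 0 := by
  simp [prodG, shiftG, Submodule.mem_prod]

lemma mem_prodG_succ (G : ℕ → Submodule ℝ V) (i : ℕ) (u : V × V) :
    u ∈ prodG G (i + 1) ↔ u.1 ∈ G (i + 1) ∧ u.2 ∈ G i := by
  simp [prodG, shiftG, Submodule.mem_prod]

lemma adj_pow {S : V →ₗ[ℝ] V →ₗ[ℝ] ℝ} {A : V →ₗ[ℝ] V} (h : ∀ x y, S (A x) y = S x (A y))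
    (k : ℕ) (x y : V) : S ((A ^ k) x) y = S x ((A ^ k) y) := by
  induction k generalizing x y with
  | zero => simp
  | succ k ih =>
    rw [pow_succ, Module.End.mul_apply, ih, h, ← Module.End.mul_apply, ← pow_succ', ← pow_succ]

lemma comm_pow {A B : V →ₗ[ℝ] V} (h : ∀ x, A (B x) = B (A x)) (k l : ℕ) (x : V) :
    (A ^ k) ((B ^ l) x) = (B ^ l) ((A ^ k) x) := by
  have hc : Commute A B := LinearMap.ext h
  have := (hc.pow_pow k l).eq
  exact congrArg (fun f : V →ₗ[ℝ] V => f x) this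

lemma deg_pow {G : ℕ → Submodule ℝ V} {A : V →ₗ[ℝ] V} (h : ∀ i x, x ∈ G i → A x ∈ G (i + 1))
    (k i : ℕ) (x : V) (hx : x ∈ G i) : (A ^ k) x ∈ G (i + k) := by
  induction k generalizing x i with
  | zero => simpa using hx
  | succ k ih =>
    rw [pow_succ, Module.End.mul_apply]
    have := ih (i + 1) (A x) (h i x hx)
    rwa [show i + (k + 1) = i + 1 + k by omega]

lemma prodG_span {G : ℕ → Submodule ℝ V} (h : ⨆ i, G i = ⊤) : ⨆ i, prodG G i = ⊤ := by
  rw [eq_top_iff]
  rintro ⟨x, y⟩ -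
  have hx : ∀ x : V, ((x, 0) : V × V) ∈ ⨆ i, prodG G i := by
    intro x
    have hx : x ∈ ⨆ i, G i := by rw [h]; trivial
    refine Submodule.iSup_induction G (motive := fun x => ((x, 0) : V × V) ∈ ⨆ i, prodG G i)
      hx ?_ ?_ ?_
    · intro i x hx
      refine Submodule.mem_iSup_of_mem i ?_
      exact Submodule.mem_prod.mpr ⟨hx, Submodule.zero_mem _⟩
    · exact Submodule.zero_mem _
    · intro x y hx hy
      have := Submodule.add_mem _ hx hy
      simpa using this
  have hy : ∀ y : V, ((0, y) : V × V) ∈ ⨆ i, prodG G i := by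
    intro y
    have hy : y ∈ ⨆ i, G i := by rw [h]; trivial
    refine Submodule.iSup_induction G (motive := fun y => ((0, y) : V × V) ∈ ⨆ i, prodG G i)
      hy ?_ ?_ ?_
    · intro i y hy
      refine Submodule.mem_iSup_of_mem (i + 1) ?_
      exact Submodule.mem_prod.mpr ⟨Submodule.zero_mem _, hy⟩
    · exact Submodule.zero_mem _
    · intro x y hx hy
      have := Submodule.add_mem _ hx hy
      simpa using this
  have := Submodule.add_mem _ (hx x) (hy y)
  simpa using this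

/-- Hodge-Riemann for the product with a projective line. -/
lemma hr_prod {m : ℕ} {G : ℕ → Submodule ℝ V} {S : V →ₗ[ℝ] V →ₗ[ℝ] ℝ} {L : V →ₗ[ℝ] V} {t : ℝ}
    (ht : 0 < t)
    (symm : ∀ x y, S x y = S y x)
    (adj : ∀ x y, S (L x) y = S x (L y)) (deg : ∀ i x, x ∈ G i → L x ∈ G (i + 1))
    (hr : ∀ i x, x ∈ G i → 2 * i ≤ m → (L ^ (m - 2 * i + 1)) x = 0 → x ≠ 0 →
      0 < (-1 : ℝ) ^ i * S x ((L ^ (m - 2 * i)) x))
    (i : ℕ) (u : V × V) (hu : u ∈ prodG G i) (hi : 2 * i ≤ m + 1)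
    (h0 : (prodA L t ^ (m + 1 - 2 * i + 1)) u = 0) (hne : u ≠ 0) :
    0 < (-1 : ℝ) ^ i * prodS S u ((prodA L t ^ (m + 1 - 2 * i)) u) := by
  obtain ⟨x, y⟩ := u
  rcases i with _ | i
  · rw [mem_prodG_zero] at hu
    obtain ⟨hx, hy⟩ := hu
    simp only at hx hy
    subst hy
    rw [prodA_pow] at h0
    simp only [map_zero, zero_add, Prod.mk_eq_zero] at h0
    have hx0 : x ≠ 0 := by
      rintro rfl
      exact hne rfl
    have hp : (L ^ (m - 2 * 0 + 1)) x = 0 := by
      have h1 := h0.2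
      rw [smul_eq_zero] at h1
      rcases h1 with h1 | h1
      · exfalso
        have : (0 : ℝ) < ((m + 1 - 2 * 0 + 1 : ℕ) : ℝ) * t := by positivity
        exact this.ne' h1
      · exact h1
    have := hr 0 x hx (by omega) hp hx0
    rw [prodA_pow]
    simp only [prodS_apply, map_zero, zero_add, LinearMap.zero_apply, add_zero, map_smul, smul_eq_mul,
      pow_zero, one_mul] at this ⊢
    have hm : m + 1 - 2 * 0 - 1 = m - 2 * 0 := by omega
    rw [hm]
    have hc : (0 : ℝ) < ((m + 1 - 2 * 0 : ℕ) : ℝ) * t := by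
      have : 0 < m + 1 - 2 * 0 := by omega
      positivity
    exact mul_pos hc this
  · rw [mem_prodG_succ] at hu
    obtain ⟨hx, hy⟩ := hu
    simp only at hx hy
    obtain ⟨k, hk⟩ : ∃ k, m - 2 * i = k + 1 := ⟨m - 2 * i - 1, by omega⟩
    have hk1 : m + 1 - 2 * (i + 1) = k := by omega
    rw [hk1] at h0 ⊢
    have hkpos : (0 : ℝ) < ((k + 1 : ℕ) : ℝ) * t := by positivity
    set c : ℝ := ((k + 1 : ℕ) : ℝ) * t with hc
    rw [prodA_pow] at h0
    simp only [Prod.mk_eq_zero, Nat.add_sub_cancel] at h0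
    obtain ⟨h0x, h0y⟩ := h0
    rw [← hc] at h0y
    -- x1
    set x1 : V := -(c⁻¹ • y) with hx1
    have hyx1 : y = -(c • x1) := by
      rw [hx1, smul_neg, smul_smul, mul_inv_cancel₀ hkpos.ne', one_smul, neg_neg]
    have hx1G : x1 ∈ G i := by
      rw [hx1]; exact Submodule.neg_mem _ (Submodule.smul_mem _ _ hy)
    have hL1 : (L ^ (k + 1)) x1 = (L ^ k) x := by
      have h2 : (L ^ (k + 1)) y + c • (L ^ k) x = 0 := h0y
      rw [hyx1, map_neg, map_smul] at h2
      have h3 : c • ((L ^ k) x - (L ^ (k + 1)) x1) = 0 := by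
        rw [smul_sub, sub_eq_neg_add]; exact h2
      rcases smul_eq_zero.mp h3 with h4 | h4
      · exact absurd h4 hkpos.ne'
      · exact (sub_eq_zero.mp h4).symm
    set x0 : V := x - L x1 with hx0
    have hxe : x = x0 + L x1 := by rw [hx0, sub_add_cancel]
    have hx0G : x0 ∈ G (i + 1) := Submodule.sub_mem _ hx (deg i x1 hx1G)
    have hL0 : (L ^ k) x0 = 0 := by
      rw [hx0, map_sub, ← hL1, pow_succ, Module.End.mul_apply, sub_self]
    have hp1 : (L ^ (m - 2 * i + 1)) x1 = 0 := by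
      rw [hk, pow_succ', Module.End.mul_apply, hL1, ← Module.End.mul_apply, ← pow_succ', h0x]
    -- second term
    have hT1 : 0 ≤ (-1 : ℝ) ^ i * S x1 ((L ^ (k + 1)) x1) ∧
        (x1 ≠ 0 → 0 < (-1 : ℝ) ^ i * S x1 ((L ^ (k + 1)) x1)) := by
      have key : x1 ≠ 0 → 0 < (-1 : ℝ) ^ i * S x1 ((L ^ (k + 1)) x1) := by
        intro h1
        have := hr i x1 hx1G (by omega) hp1 h1
        rwa [hk] at this
      refine ⟨?_, key⟩
      by_cases h1 : x1 = 0
      · rw [h1]; simp
      · exact (key h1).le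
    have hT0 : 0 ≤ (k : ℝ) * ((-1 : ℝ) ^ (i + 1) * S x0 ((L ^ (k - 1)) x0)) ∧
        (x0 ≠ 0 → 0 < (k : ℝ) * ((-1 : ℝ) ^ (i + 1) * S x0 ((L ^ (k - 1)) x0))) := by
      have key : x0 ≠ 0 → 0 < (k : ℝ) * ((-1 : ℝ) ^ (i + 1) * S x0 ((L ^ (k - 1)) x0)) := by
        intro h1
        rcases k with _ | k
        · exact absurd (by simpa using hL0) h1
        · have h2 : m - 2 * (i + 1) = k := by omega
          have := hr (i + 1) x0 hx0G (by omega) (by rw [h2]; exact hL0) h1
          rw [h2] at this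
          exact mul_pos (by positivity) this
      refine ⟨?_, key⟩
      by_cases h1 : x0 = 0
      · rw [h1]; simp
      · exact (key h1).le
    -- the form
    have hform : prodS S (x, y) ((prodA L t ^ k) (x, y)) =
        (k : ℝ) * t * S x0 ((L ^ (k - 1)) x0) - ((k : ℝ) + 2) * t * S x1 ((L ^ (k + 1)) x1) := by
      rw [prodA_pow]
      simp only [prodS_apply, map_add, map_smul, smul_eq_mul]
      have e1 : S y ((L ^ k) x) = -(c * S x1 ((L ^ (k + 1)) x1)) := by
        rw [hyx1, ← hL1]; simp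
      have e2 : S x ((L ^ k) y) = -(c * S x1 ((L ^ (k + 1)) x1)) := by
        rw [← adj_pow adj, symm, e1]
      have e3 : (k : ℝ) * S x ((L ^ (k - 1)) x) =
          (k : ℝ) * (S x0 ((L ^ (k - 1)) x0) + S x1 ((L ^ (k + 1)) x1)) := by
        rcases k with _ | k
        · simp
        · congr 1
          simp only [Nat.add_sub_cancel]
          have a1 : S x0 ((L ^ k) (L x1)) = 0 := by
            rw [← Module.End.mul_apply, ← pow_succ, ← adj_pow adj, hL0]; simp
          have a2 : S (L x1) ((L ^ k) x0) = 0 := by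
            rw [adj, ← Module.End.mul_apply, ← pow_succ', hL0]; simp
          have a3 : S (L x1) ((L ^ k) (L x1)) = S x1 ((L ^ (k + 1 + 1)) x1) := by
            rw [adj, ← Module.End.mul_apply (L ^ k) L, ← pow_succ, ← Module.End.mul_apply L,
              ← pow_succ']
          rw [hxe]
          simp only [map_add, LinearMap.add_apply]
          rw [a1, a2, a3]; ring
      have e4 : (k : ℝ) * t * S x ((L ^ (k - 1)) x) =
          t * ((k : ℝ) * S x ((L ^ (k - 1)) x)) := by ring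
      rw [e2, e1, e4, e3, hc]
      push_cast
      ring
    rw [hform]
    have hfin : (-1 : ℝ) ^ (i + 1) * ((k : ℝ) * t * S x0 ((L ^ (k - 1)) x0) -
        ((k : ℝ) + 2) * t * S x1 ((L ^ (k + 1)) x1)) =
        t * ((k : ℝ) * ((-1 : ℝ) ^ (i + 1) * S x0 ((L ^ (k - 1)) x0))) +
        ((k : ℝ) + 2) * t * ((-1 : ℝ) ^ i * S x1 ((L ^ (k + 1)) x1)) := by
      rw [pow_succ]; ring
    rw [hfin]
    by_cases h1 : x1 = 0
    · have h2 : x0 ≠ 0 := by
        intro h2
        apply hne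
        rw [hxe, hyx1, h1, h2]; simp
      have := hT0.2 h2
      have h3 := hT1.1
      have h4 : 0 < t * ((k : ℝ) * ((-1 : ℝ) ^ (i + 1) * S x0 ((L ^ (k - 1)) x0))) := mul_pos ht this
      have h5 : 0 ≤ ((k : ℝ) + 2) * t * ((-1 : ℝ) ^ i * S x1 ((L ^ (k + 1)) x1)) :=
        mul_nonneg (by positivity) h3
      linarith
    · have := hT1.2 h1
      have h3 := hT0.1
      have h4 : 0 ≤ t * ((k : ℝ) * ((-1 : ℝ) ^ (i + 1) * S x0 ((L ^ (k - 1)) x0))) :=
        mul_nonneg ht.le h3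
      have h5 : 0 < ((k : ℝ) + 2) * t * ((-1 : ℝ) ^ i * S x1 ((L ^ (k + 1)) x1)) :=
        mul_pos (by positivity) this
      linarith

lemma prodA_add (A B : V →ₗ[ℝ] V) (t : ℝ) :
    prodA B 0 + t • prodA A 1 = prodA (B + t • A) t := by
  refine LinearMap.ext fun u => ?_
  refine Prod.ext ?_ ?_
  · simp
  · simp only [LinearMap.add_apply, LinearMap.smul_apply, prodA_apply, Prod.smul_mk, Prod.mk_add_mk,
      smul_add, zero_smul, add_zero, one_smul, add_assoc]

theorem KHyp.prod {m : ℕ} {G : ℕ → Submodule ℝ V} {S : V →ₗ[ℝ] V →ₗ[ℝ] ℝ} {N eta : V →ₗ[ℝ] V}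
    (h : KHyp V m G S N eta) :
    KHyp (V × V) (m + 1) (prodG G) (prodS S) (prodA N 1) (prodA eta 0) where
  fin := by
    have := h.fin
    infer_instance
  span := prodG_span h.span
  symm := by
    intro x y
    simp only [prodS_apply]
    rw [h.symm x.1, h.symm x.2]; ring
  nondeg := by
    rintro ⟨x, y⟩ hx
    have h1 : x = 0 := h.nondeg x fun z => by
      have := hx (0, z)
      simpa using this
    have h2 : y = 0 := h.nondeg y fun z => by
      have := hx (z, 0)
      simpa using this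
    rw [h1, h2]; rfl
  pair := by
    intro i j x y hx hy hij
    have key : ∀ i j (x y : V), x ∈ G i → y ∈ shiftG G j → i + j ≠ m + 1 → S x y = 0 := by
      intro i j x y hx hy hij
      rcases j with _ | j
      · have : y = 0 := by simpa [shiftG] using hy
        rw [this]; simp
      · exact h.pair i j x y hx hy (by omega)
    simp only [prodS_apply]
    have hx' := Submodule.mem_prod.mp hx
    have hy' := Submodule.mem_prod.mp hy
    rw [key i j x.1 y.2 hx'.1 hy'.2 hij, h.symm x.2 y.1, key j i y.1 x.2 hy'.1 hx'.2 (by omega)]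
    simp
  degN := by
    intro i u hu
    rcases i with _ | i
    · rw [mem_prodG_zero] at hu
      rw [mem_prodG_succ]
      refine ⟨h.degN 0 _ hu.1, ?_⟩
      simp only [prodA_apply, hu.2, map_zero, one_smul, zero_add]
      exact hu.1
    · rw [mem_prodG_succ] at hu
      rw [mem_prodG_succ]
      refine ⟨h.degN _ _ hu.1, ?_⟩
      simp only [prodA_apply, one_smul]
      exact Submodule.add_mem _ (h.degN _ _ hu.2) hu.1
  degE := by
    intro i u hu
    rcases i with _ | i
    · rw [mem_prodG_zero] at hu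
      rw [mem_prodG_succ]
      refine ⟨h.degE 0 _ hu.1, ?_⟩
      simp only [prodA_apply, hu.2, map_zero, zero_smul, zero_add]
      exact Submodule.zero_mem _
    · rw [mem_prodG_succ] at hu
      rw [mem_prodG_succ]
      refine ⟨h.degE _ _ hu.1, ?_⟩
      simp only [prodA_apply, zero_smul, add_zero]
      exact h.degE _ _ hu.2
  comm := by
    intro u
    simp only [prodA_apply, zero_smul, add_zero, one_smul, map_add, h.comm]
  adjN := by
    intro x y
    simp only [prodA_apply, prodS_apply, map_add, LinearMap.add_apply, one_smul, h.adjN]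
    ring
  adjE := by
    intro x y
    simp only [prodA_apply, prodS_apply, zero_smul, add_zero, h.adjE]
  hr := by
    obtain ⟨t0, ht0⟩ := h.hr
    refine ⟨max t0 1, fun t ht i u hu hi h0 hne => ?_⟩
    have ht1 : (0 : ℝ) < t := lt_of_lt_of_le one_pos (le_trans (le_max_right _ _) ht)
    have ht2 : t0 ≤ t := le_trans (le_max_left _ _) ht
    rw [prodA_add] at h0 ⊢
    refine hr_prod ht1 h.symm ?_ ?_ (ht0 t ht2) i u hu hi h0 hne
    · intro x y
      simp only [LinearMap.add_apply, LinearMap.smul_apply, map_add, map_smul, smul_eq_mul,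
        h.adjN, h.adjE]
    · intro i x hx
      simp only [LinearMap.add_apply, LinearMap.smul_apply]
      exact Submodule.add_mem _ (h.degE i x hx) (Submodule.smul_mem _ _ (h.degN i x hx))

/-- K(l) for `V × V` implies K(l+1) for `V`. -/
theorem KConc.step {m : ℕ} {G : ℕ → Submodule ℝ V} {S : V →ₗ[ℝ] V →ₗ[ℝ] ℝ} {N eta : V →ₗ[ℝ] V}
    (h : KHyp V m G S N eta) (l : ℕ)
    (hl : KConc (V × V) (m + 1) (prodG G) (prodS S) (prodA N 1) (prodA eta 0) l) :
    KConc V m G S N eta (l + 1) := by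
  intro i x hx h0 hi hz
  obtain ⟨z, hz⟩ := hz
  set c : ℝ := ((l + 1 : ℕ) : ℝ)⁻¹ with hc
  have hl0 : ((l + 1 : ℕ) : ℝ) ≠ 0 := by positivity
  have hlc : ((l + 1 : ℕ) : ℝ) * c = 1 := mul_inv_cancel₀ hl0
  -- the vector x~
  set u : V × V := (-(c • N x), x) with hu
  have NN : ∀ (k : ℕ) (w : V), (N ^ k) (N w) = (N ^ (k + 1)) w := fun k w => by
    rw [pow_succ, Module.End.mul_apply]
  have huG : u ∈ prodG G (i + 1) := by
    rw [mem_prodG_succ]
    exact ⟨Submodule.neg_mem _ (Submodule.smul_mem _ _ (h.degN i x hx)), hx⟩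
  have hu0 : (prodA N 1 ^ (l + 1)) u = 0 := by
    rw [prodA_pow]
    simp only [hu, map_neg, map_smul, NN, h0, Nat.add_sub_cancel, smul_zero, neg_zero, mul_one,
      smul_neg, smul_smul, hlc, one_smul, add_neg_cancel]
    rfl
  have hNu : (prodA N 1 ^ l) u = (-(c • (N ^ (l + 1)) x), c • (N ^ l) x) := by
    rw [prodA_pow]
    simp only [hu, map_neg, map_smul, NN, mul_one]
    refine Prod.ext rfl ?_
    simp only
    rcases l with _ | l
    · simp only [zero_add, Nat.cast_one, inv_one] at hc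
      simp [hc]
    · simp only [Nat.add_sub_cancel, smul_neg, smul_smul]
      rw [← sub_eq_add_neg, ← one_smul ℝ ((N ^ (l + 1)) x), smul_smul, smul_smul, ← sub_smul]
      congr 1
      push_cast at hlc ⊢
      linear_combination -hlc
  have hm1 : m + 1 - 2 * (i + 1) - l + 1 = m - 2 * i - (l + 1) + 1 := by omega
  have hm2 : m + 1 - 2 * (i + 1) - l = m - 2 * i - (l + 1) := by omega
  have hmain := hl (i + 1) u huG hu0 (by omega)
  rw [hm1, hm2, hNu] at hmain
  have hform : (-1 : ℝ) ^ (i + 1) * prodS S u ((prodA eta 0 ^ (m - 2 * i - (l + 1)))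
      (-(c • (N ^ (l + 1)) x), c • (N ^ l) x)) =
      (c * c + c) * ((-1 : ℝ) ^ i * S x ((eta ^ (m - 2 * i - (l + 1))) ((N ^ (l + 1)) x))) := by
    rw [prodA_zero_pow]
    simp only [hu, prodS_apply, map_neg, map_smul, LinearMap.neg_apply, LinearMap.smul_apply,
      smul_eq_mul]
    have e1 : S (N x) ((eta ^ (m - 2 * i - (l + 1))) ((N ^ l) x)) =
        S x ((eta ^ (m - 2 * i - (l + 1))) ((N ^ (l + 1)) x)) := by
      rw [h.adjN]
      congr 1
      have hcm : ∀ w, N ((eta ^ (m - 2 * i - (l + 1))) w) =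
          (eta ^ (m - 2 * i - (l + 1))) (N w) := by
        intro w
        have := comm_pow h.comm 1 (m - 2 * i - (l + 1)) w
        simpa using this
      rw [hcm, ← Module.End.mul_apply N, ← pow_succ']
    rw [e1, pow_succ]; ring
  have hcpos : 0 < c * c + c := by
    have : 0 < c := by rw [hc]; positivity
    positivity
  rw [hform] at hmain
  have hex : ∃ w, (prodA eta 0 ^ (m - 2 * i - (l + 1) + 1)) (-(c • (N ^ (l + 1)) x), c • (N ^ l) x)
      = (prodA N 1 ^ (l + 1)) w := by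
    set e := m - 2 * i - (l + 1) + 1 with he
    refine ⟨(-(c • N z) + (c * c) • ((eta ^ e) x - N z), (1 + c) • z), ?_⟩
    rw [prodA_zero_pow, prodA_pow]
    have hcomm : ∀ (k : ℕ) (w : V), (eta ^ e) ((N ^ k) w) = (N ^ k) ((eta ^ e) w) :=
      fun k w => (comm_pow h.comm k e w).symm
    have hz' : (N ^ (l + 1)) ((eta ^ e) x) = (N ^ (l + 1 + 1)) z := by rw [← hcomm]; exact hz
    refine Prod.ext ?_ ?_
    · simp only [map_neg, map_smul, map_add, map_sub, NN, hcomm, hz', sub_self, smul_zero, add_zero]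
    · simp only [map_neg, map_smul, map_add, map_sub, NN, hcomm, Nat.add_sub_cancel, mul_one]
      have a1 : ((l + 1 : ℕ) : ℝ) • (-(c • (N ^ (l + 1)) z) + (c * c) • ((N ^ l) ((eta ^ e) x) -
          (N ^ (l + 1)) z)) = -((N ^ (l + 1)) z) + c • ((N ^ l) ((eta ^ e) x) - (N ^ (l + 1)) z) := by
        rw [smul_add, smul_neg, smul_smul, smul_smul, ← mul_assoc, hlc, one_mul, one_smul]
      rw [a1, smul_sub, add_smul, one_smul]
      abel
  obtain ⟨m1, m2⟩ := hmain hex
  refine ⟨?_, ?_⟩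
  · exact nonneg_of_mul_nonneg_right m1 hcpos
  · intro hne
    have := m2 ?_
    · exact (mul_pos_iff_of_pos_left hcpos).mp this
    · rintro ⟨w, hw⟩
      apply hne
      rw [prodA_pow] at hw
      have w1 := congrArg Prod.fst hw
      have w2 := congrArg Prod.snd hw
      simp only [Nat.add_sub_cancel, mul_one] at w1 w2
      -- apply N to w2
      have w3 := congrArg N w2
      simp only [map_add, map_smul] at w3
      rw [← Module.End.mul_apply N (N ^ l) x, ← pow_succ', ← Module.End.mul_apply N (N ^ (l + 1)),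
        ← pow_succ', ← Module.End.mul_apply N (N ^ l) w.1, ← pow_succ', ← w1] at w3
      -- w3 : c • N^(l+1) x = N^(l+2) w.2 + (l+1) • (-(c • N^(l+1) x))
      refine ⟨(c + 1)⁻¹ • w.2, ?_⟩
      have hc1 : c + 1 ≠ 0 := by
        have : 0 < c := by rw [hc]; positivity
        positivity
      rw [map_smul, eq_inv_smul_iff₀ hc1]
      rw [smul_neg, smul_smul, hlc, one_smul] at w3
      rw [add_smul, one_smul, w3]
      abel

end Prod

section Basic

variable {V : Type} [AddCommGroup V] [Module ℝ V] {m : ℕ} {G : ℕ → Submodule ℝ V}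
  {S : V →ₗ[ℝ] V →ₗ[ℝ] ℝ} {N eta : V →ₗ[ℝ] V}

/-- two vectors that pair equally with everything are equal -/
lemma KHyp.ext (h : KHyp V m G S N eta) {x y : V} (hxy : ∀ z, S x z = S y z) : x = y := by
  have : x - y = 0 := h.nondeg _ fun z => by rw [map_sub, LinearMap.sub_apply, hxy, sub_self]
  exact sub_eq_zero.mp this

/-- a vector of degree `i` is determined by its pairings with degree `m - i` -/
lemma KHyp.eq_zero_of_pair (h : KHyp V m G S N eta) {i : ℕ} {x : V} (hx : x ∈ G i)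
    (hz : ∀ j y, y ∈ G j → i + j = m → S x y = 0) : x = 0 := by
  refine h.nondeg x fun y => ?_
  have hy : y ∈ ⨆ i, G i := by rw [h.span]; trivial
  refine Submodule.iSup_induction G (motive := fun y => S x y = 0) hy ?_ ?_ ?_
  · intro j y hy
    by_cases hj : i + j = m
    · exact hz j y hy hj
    · exact h.pair i j x y hx hy hj
  · simp
  · intro y z hy hz
    rw [map_add, hy, hz, add_zero]

lemma KHyp.top (h : KHyp V m G S N eta) {i : ℕ} (hi : m < i) : G i = ⊥ := by
  rw [eq_bot_iff]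
  intro x hx
  rw [Submodule.mem_bot]
  exact h.eq_zero_of_pair hx fun j y _ hj => absurd hj (by omega)

/-- the grading is independent -/
lemma KHyp.indep (h : KHyp V m G S N eta) : iSupIndep G := by
  rw [iSupIndep_def]
  intro i
  rw [Submodule.disjoint_def]
  intro x hx hx'
  refine h.eq_zero_of_pair hx fun j y hy hj => ?_
  refine Submodule.iSup_induction (fun k : {k // k ≠ i} => G k) (motive := fun x => S x y = 0)
    (by rwa [iSup_subtype]) ?_ ?_ ?_
  · rintro ⟨k, hk⟩ z hz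
    exact h.pair k j z y hz hy (by omega)
  · simp
  · intro a b ha hb
    rw [map_add, LinearMap.add_apply, ha, hb, add_zero]

lemma KHyp.internal (h : KHyp V m G S N eta) : DirectSum.IsInternal G :=
  (DirectSum.isInternal_submodule_iff_iSupIndep_and_iSup_eq_top G).mpr ⟨h.indep, h.span⟩

end Basic

/-- K for `l = 0` (all spaces) implies K for all `l`. -/
theorem K_of_K0
    (K0 : ∀ (V : Type) [AddCommGroup V] [Module ℝ V] (m : ℕ) (G : ℕ → Submodule ℝ V)
      (S : V →ₗ[ℝ] V →ₗ[ℝ] ℝ) (N eta : V →ₗ[ℝ] V), KHyp V m G S N eta → KConc V m G S N eta 0)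
    (l : ℕ) : ∀ (V : Type) [AddCommGroup V] [Module ℝ V] (m : ℕ) (G : ℕ → Submodule ℝ V)
      (S : V →ₗ[ℝ] V →ₗ[ℝ] ℝ) (N eta : V →ₗ[ℝ] V), KHyp V m G S N eta →
      KConc V m G S N eta l := by
  induction l with
  | zero => exact K0
  | succ l ih =>
    intro V _ _ m G S N eta h
    exact KConc.step h l (ih (V × V) (m + 1) (prodG G) (prodS S) (prodA N 1) (prodA eta 0) h.prod)

end Pool.Agent.KF.K
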