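import Pool.Agent.KF.K.KInd
import Pool.Agent.KF.G.Stmts
import Pool.Agent.LFC.Stmts

/-!
MP_716236_co, part K: the case `l = 0` from the Hodge norm of constant vectors over Laurent series
(`LFC.S_OUT`), and the final statement of part K (helper30).
-/

set_option autoImplicit false

open LaurentSeries

namespace Pool.Agent.KF.K

open Pool.Agent.LFC (Nng Pol cst S_OUT)

lemma coeff_nonneg {a : LaurentSeries ℝ} (h : Nng a) {n : ℤ} (hn : ∀ k < n, a.coeff k = 0) :
    0 ≤ a.coeff n := by
  by_contra hc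
  push Not at hc
  have h0 : a ≠ 0 := by
    rintro rfl
    simp at hc
  have h1 : a.order = n := by
    apply le_antisymm
    · exact HahnSeries.order_le_of_coeff_ne_zero hc.ne
    · by_contra h2
      push Not at h2
      exact h0 (HahnSeries.coeff_order_eq_zero.1 (hn _ h2))
  have h2 : a.leadingCoeff = a.coeff n := by rw [HahnSeries.leadingCoeff_eq, h1]
  rw [Nng, h2] at h
  exact absurd h (not_le.2 hc)

lemma exists_low {ι : Type*} (s : Finset ι) (p : ι → LaurentSeries ℝ) :
    ∃ M : ℤ, ∀ i ∈ s, ∀ n < M, (p i).coeff n = 0 := by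
  classical
  induction s using Finset.induction_on with
  | empty => exact ⟨0, by simp⟩
  | insert b s hb ih =>
    obtain ⟨M, hM⟩ := ih
    refine ⟨min M (p b).order, fun i hi n hn => ?_⟩
    rcases Finset.mem_insert.1 hi with h1 | h1
    · rw [h1]
      exact HahnSeries.coeff_eq_zero_of_lt_order (lt_of_lt_of_le hn (min_le_right _ _))
    · exact hM i h1 n (lt_of_lt_of_le hn (min_le_left _ _))

/-- if a positive combination of nonnegative series has no coefficient up to `N`, neither have the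
summands with a positive factor. -/
lemma coeff_zero_of_sum {ι : Type*} (s : Finset ι) (p : ι → LaurentSeries ℝ)
    (hp : ∀ i ∈ s, Nng (p i)) (c : ι → ℝ) (hc : ∀ i ∈ s, 0 < c i) (N : ℤ)
    (h : ∀ n ≤ N, ∑ i ∈ s, c i * (p i).coeff n = 0) :
    ∀ i ∈ s, ∀ n ≤ N, (p i).coeff n = 0 := by
  obtain ⟨M, hM⟩ := exists_low s p
  have key : ∀ k : ℕ, M + k ≤ N + 1 → ∀ i ∈ s, ∀ n < M + k, (p i).coeff n = 0 := by
    intro k
    induction k with
    | zero =>
      intro _ i hi n hn
      exact hM i hi n (by simpa using hn)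
    | succ k ih =>
      intro hk i hi n hn
      have ih' := ih (by push_cast at hk; omega)
      rcases lt_or_eq_of_le (show n ≤ M + k by push_cast at hn; omega) with h1 | h1
      · exact ih' i hi n h1
      · subst h1
        have h2 : ∀ i ∈ s, 0 ≤ c i * (p i).coeff (M + k) := fun j hj =>
          mul_nonneg (hc j hj).le (coeff_nonneg (hp j hj) (ih' j hj))
        have h3 := (Finset.sum_eq_zero_iff_of_nonneg h2).1
          (h (M + k) (by push_cast at hk; omega)) i hi
        rcases mul_eq_zero.1 h3 with h4 | h4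
        · exact absurd h4 (hc i hi).ne'
        · exact h4
  intro i hi n hn
  rcases lt_or_ge n M with h1 | h1
  · exact hM i hi n h1
  · exact key (N + 1 - M).toNat (by omega) i hi n (by omega)

lemma coeff_cst (r : ℝ) (n : ℤ) : (cst r : LaurentSeries ℝ).coeff n = if n = 0 then r else 0 := by
  rw [cst, HahnSeries.C_apply]
  split_ifs with h
  · rw [h, HahnSeries.coeff_single_same]
  · exact HahnSeries.coeff_single_of_ne h

lemma coeff_cst_mul (r : ℝ) (a : LaurentSeries ℝ) (n : ℤ) :
    (cst r * a).coeff n = r * a.coeff n := by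
  rw [cst, HahnSeries.C_mul_eq_smul, HahnSeries.coeff_smul, smul_eq_mul]

lemma coeff_sum' {ι : Type*} (s : Finset ι) (f : ι → LaurentSeries ℝ) (n : ℤ) :
    (∑ i ∈ s, f i).coeff n = ∑ i ∈ s, (f i).coeff n := by
  classical
  induction s using Finset.induction_on with
  | empty => simp
  | insert a s ha ih => rw [Finset.sum_insert ha, Finset.sum_insert ha, HahnSeries.coeff_add, ih]

lemma neg_one_pow_mul (s : ℕ) (a : LaurentSeries ℝ) : (-1) ^ s * a = cst ((-1) ^ s) * a := by
  rw [cst, map_pow, map_neg, map_one]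

lemma mul_small {a b : LaurentSeries ℝ} (ha : ∀ n ≤ 0, a.coeff n = 0)
    (hb : ∀ n < 0, b.coeff n = 0) : ∀ n ≤ 0, (a * b).coeff n = 0 := by
  intro n hn
  rw [HahnSeries.coeff_mul]
  refine Finset.sum_eq_zero fun x hx => ?_
  rw [Finset.mem_antidiagonal] at hx
  obtain ⟨h1, h2, h3⟩ := hx
  rcases le_or_gt x.1 0 with h4 | h4
  · rw [ha _ h4, zero_mul]
  · rw [hb x.2 (by omega), mul_zero]

section

variable {V : Type} [AddCommGroup V] [Module ℝ V] {m : ℕ} {G : ℕ → Submodule ℝ V}
  {S : V →ₗ[ℝ] V →ₗ[ℝ] ℝ} {N eta : V →ₗ[ℝ] V}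

/-- the range of `N` is the orthogonal of its kernel. -/
lemma KHyp.range_eq (h : KHyp V m G S N eta) :
    LinearMap.range N = LinearMap.BilinForm.orthogonal S (LinearMap.ker N) := by
  have := h.fin
  have hS : LinearMap.BilinForm.Nondegenerate S :=
    ⟨fun x hx => h.nondeg x hx, fun x hx => h.nondeg x fun y => by rw [h.symm]; exact hx y⟩
  refine Submodule.eq_of_le_of_finrank_eq ?_ ?_
  · rintro _ ⟨y, rfl⟩
    rw [LinearMap.BilinForm.mem_orthogonal_iff]
    intro b hb
    rw [← h.adjN, LinearMap.mem_ker.1 hb, map_zero, LinearMap.zero_apply]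
  · rw [LinearMap.BilinForm.finrank_orthogonal hS]
    have h1 := N.finrank_range_add_finrank_ker
    omega

/-- a vector of `G i` orthogonal to the kernel of `N` in the complementary degree is in the image
of `N`. -/
lemma KHyp.mem_range (h : KHyp V m G S N eta) {i : ℕ} {x : V} (hx : x ∈ G i) (hi : i ≤ m)
    (h0 : ∀ b ∈ G (m - i), N b = 0 → S x b = 0) : ∃ y, x = N y := by
  have key : x ∈ LinearMap.BilinForm.orthogonal S (LinearMap.ker N) := by
    rw [LinearMap.BilinForm.mem_orthogonal_iff]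
    intro b hb
    rw [LinearMap.mem_ker] at hb
    have htop : b ∈ G (m - i) ⊔ ⨆ k, ⨆ (_ : k ≠ m - i), G k := by
      rw [← iSup_split_single, h.span]
      trivial
    obtain ⟨b1, hb1, b2, hb2, rfl⟩ := Submodule.mem_sup.1 htop
    have hp : ∀ j (z : V), z ∈ G j → (m - i) + j = m → S b2 z = 0 := by
      intro j z hz hj
      refine Submodule.iSup_induction (fun k => ⨆ (_ : k ≠ m - i), G k)
        (motive := fun y => S y z = 0) hb2 ?_ ?_ ?_
      · intro k y hy
        by_cases hk : k = m - i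
        · rw [iSup_neg (by simpa using hk)] at hy
          rw [(Submodule.mem_bot ℝ).1 hy, map_zero, LinearMap.zero_apply]
        · rw [iSup_pos hk] at hy
          exact h.pair k j y z hy hz (by omega)
      · rw [map_zero, LinearMap.zero_apply]
      · intro y y' hy hy'
        rw [map_add, LinearMap.add_apply, hy, hy', add_zero]
    have hN1 : N b1 = 0 := by
      refine h.eq_zero_of_pair (h.degN _ _ hb1) fun j z hz hj => ?_
      have h1 : S (N (b1 + b2)) z = 0 := by rw [hb, map_zero, LinearMap.zero_apply]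
      rw [h.adjN, map_add, LinearMap.add_apply,
        hp (j + 1) (N z) (h.degN _ _ hz) (by omega), add_zero] at h1
      rw [h.adjN]
      exact h1
    change S (b1 + b2) x = 0
    rw [map_add, LinearMap.add_apply, hp i x hx (by omega), add_zero, h.symm]
    exact h0 b1 hb1 hN1
  rw [← h.range_eq] at key
  obtain ⟨y, hy⟩ := key
  exact ⟨y, hy.symm⟩

/-- the hypotheses in the form of the core frame. -/
lemma KHyp.hyp (h : KHyp V m G S N eta) : LFC.Hyp m G S N eta where
  gr := ⟨h.internal, fun _ hj => h.top hj⟩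
  pa := ⟨h.symm, h.nondeg, fun i j hij x hx y hy => h.pair i j x y hx hy hij⟩
  omd := h.degN
  etd := h.degE
  oms := h.adjN
  ets := h.adjE
  cm := h.comm
  hr := by
    obtain ⟨t0, ht0⟩ := h.hr
    refine ⟨t0, fun s hs j hj a ha h0 hne => ?_⟩
    rw [add_comm (s • N)] at h0 ⊢
    exact ht0 s hs.le j a ha hj h0 hne

/-- K for `l = 0`. -/
theorem k0 (hOUT : S_OUT) (h : KHyp V m G S N eta) : KConc V m G S N eta 0 := by
  have hfin := h.fin
  obtain ⟨nrm, -, ho1, ho2, ho3, ho4⟩ := hOUT V m G S N eta h.hyp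
  intro i x hx hN hi hz
  rw [zero_add, pow_one] at hN
  simp only [zero_add, pow_zero, pow_one, Module.End.one_apply, tsub_zero] at hz ⊢
  have hi' : 2 * i ≤ m := by omega
  obtain ⟨p, c, c', hp, hc, hc0, hc', hn, ha, hb⟩ := ho3 i hi' x hx hN
  set v : ℝ := (-1 : ℝ) ^ i * S x ((eta ^ (m - 2 * i)) x) with hv
  have hn' : ∀ n, (nrm x).coeff n = ∑ s ∈ Finset.range (i + 1), c s * (p s).coeff n := by
    intro n
    rw [hn, coeff_sum']
    exact Finset.sum_congr rfl fun s _ => coeff_cst_mul _ _ _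
  have ha' : ∀ n, ∑ s ∈ Finset.range (i + 1), (-1 : ℝ) ^ s * (p s).coeff n =
      if n = 0 then v else 0 := by
    intro n
    rw [← coeff_cst, ha, coeff_sum']
    exact Finset.sum_congr rfl fun s _ => by rw [neg_one_pow_mul, coeff_cst_mul]
  have hb' : ∀ n, (nrm ((eta ^ (m - 2 * i + 1)) x)).coeff n =
      ∑ s ∈ Finset.range i, c' (s + 1) * (p (s + 1)).coeff n := by
    intro n
    rw [hb, coeff_sum', Finset.sum_range_succ', coeff_cst_mul, hc0, zero_mul, add_zero]
    exact Finset.sum_congr rfl fun s _ => coeff_cst_mul _ _ _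
  have hNy : N ((eta ^ (m - 2 * i + 1)) x) = 0 := by
    have h1 : ∀ k, N ((eta ^ k) x) = 0 := by
      intro k
      induction k with
      | zero => simpa using hN
      | succ k ih => rw [pow_succ', Module.End.mul_apply, h.comm, ih, map_zero]
    exact h1 _
  obtain ⟨y, hy⟩ := hz
  have hs : ∀ n ≤ (0 : ℤ), (nrm ((eta ^ (m - 2 * i + 1)) x)).coeff n = 0 := by
    intro n hn0
    rw [hy] at hNy ⊢
    exact ho2 y hNy n (by omega)
  have hps : ∀ s ∈ Finset.range i, ∀ n ≤ (0 : ℤ), (p (s + 1)).coeff n = 0 := by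
    refine coeff_zero_of_sum (Finset.range i) (fun s => p (s + 1)) (fun s _ => hp (s + 1))
      (fun s => c' (s + 1)) (fun s _ => hc' (s + 1) (by omega)) 0 (fun n hn0 => ?_)
    rw [← hb']
    exact hs n hn0
  have hp0 : ∀ n ≤ (0 : ℤ), (p 0).coeff n = if n = 0 then v else 0 := by
    intro n hn0
    rw [← ha' n, Finset.sum_range_succ', pow_zero, one_mul]
    have h1 : ∑ s ∈ Finset.range i, (-1 : ℝ) ^ (s + 1) * (p (s + 1)).coeff n = 0 :=
      Finset.sum_eq_zero fun s hs => by rw [hps s hs n hn0, mul_zero]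
    rw [h1, zero_add]
  have hv0 : 0 ≤ v := by
    have h1 := coeff_nonneg (hp 0) (n := 0) fun k hk => by
      rw [hp0 k hk.le, if_neg hk.ne]
    rwa [hp0 0 le_rfl, if_pos rfl] at h1
  refine ⟨hv0, fun hx' => lt_of_le_of_ne hv0 fun hv1 => hx' ?_⟩
  have hsml : ∀ n ≤ (0 : ℤ), (nrm x).coeff n = 0 := by
    intro n hn0
    rw [hn', Finset.sum_range_succ', hp0 n hn0, ← hv1, ite_self, mul_zero, add_zero]
    exact Finset.sum_eq_zero fun s hs => by rw [hps s hs n hn0, mul_zero]
  refine h.mem_range hx (by omega) fun b hb hNb => ?_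
  have h1 := mul_small hsml fun n hn0 => ho1 b hNb n (by omega)
  have h2 := ho4 x b
  have h3 : ∀ n < (0 : ℤ), (nrm x * nrm b - cst (S x b * S x b)).coeff n = 0 := by
    intro n hn0
    rw [HahnSeries.coeff_sub, h1 n hn0.le, coeff_cst, if_neg hn0.ne, sub_zero]
  have h4 := coeff_nonneg h2 h3
  rw [HahnSeries.coeff_sub, h1 0 le_rfl, coeff_cst, if_pos rfl, zero_sub] at h4
  have h5 : S x b * S x b ≤ 0 := by linarith
  exact mul_self_eq_zero.1 (le_antisymm h5 (mul_self_nonneg _))

end

/-- Part K: all `l`. -/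
theorem k_all (hOUT : S_OUT) (l : ℕ) (V : Type) [AddCommGroup V] [Module ℝ V] (m : ℕ)
    (G : ℕ → Submodule ℝ V) (S : V →ₗ[ℝ] V →ₗ[ℝ] ℝ) (N eta : V →ₗ[ℝ] V)
    (h : KHyp V m G S N eta) : KConc V m G S N eta l :=
  K_of_K0 (fun V _ _ m G S N eta h => k0 hOUT h) l V m G S N eta h

/-- Theorem K in the form of part G. -/
theorem s_K (hOUT : S_OUT) : G.S_K := by
  intro V _ _ _ G m S N η hint htop hsym hnd hpair hcomm hdN hdE haN haE hr i l x hx hN hl hrg
  have h : KHyp V m G S N η :=
    { fin := inferInstance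
      span := hint.submodule_iSup_eq_top
      symm := hsym
      nondeg := hnd
      pair := fun i j x y hx hy hij => hpair i j hij x hx y hy
      degN := hdN
      degE := hdE
      comm := hcomm
      adjN := haN
      adjE := haE
      hr := by
        obtain ⟨t0, ht0⟩ := hr
        exact ⟨t0, fun t ht i x hx hi h0 hne => ht0 t ht i x hx hi h0 hne⟩ }
  obtain ⟨z, hz⟩ := hrg
  obtain ⟨h1, h2⟩ := k_all hOUT l V m G S N η h i x hx hN hl ⟨z, hz.symm⟩
  exact ⟨h1, fun h3 => h2 fun ⟨z, hz⟩ => h3 ⟨z, hz.symm⟩⟩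

end Pool.Agent.KF.K
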